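import Pool.Agent.helper37.F2.Spec

/-!
Row HU of MP_26dbae_co (from HU1, WCC, KQ).
-/

set_option autoImplicit false

open scoped BigOperators

namespace Pool.Agent.helper55.F2

open Pool.Agent.helper23.TH Pool.Agent.KS Pool.Agent.RXF

open Classical

theorem amT {V : Type} [Fintype V] (A : V → V → Prop) (hs : ∀ u v, A u v → A v u) (j : ℕ) :
    (am A ^ j).transpose = am A ^ j := by
  rw [Matrix.transpose_pow]
  congr 1
  ext a b
  simp only [am, Matrix.transpose_apply, Matrix.of_apply]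
  have : A b a ↔ A a b := ⟨hs b a, hs a b⟩
  simp only [this]

theorem amS {V : Type} [Fintype V] (A : V → V → Prop) (hs : ∀ u v, A u v → A v u) (j : ℕ)
    (a b : V) : (am A ^ j) a b = (am A ^ j) b a := by
  have := congrFun (congrFun (amT A hs j) b) a
  rw [Matrix.transpose_apply] at this
  exact this

theorem am0 {V : Type} [Fintype V] (A : V → V → Prop) (j : ℕ) (a b : V) :
    0 ≤ (am A ^ j) a b := by
  induction j generalizing a b with
  | zero =>
    rw [pow_zero, Matrix.one_apply]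
    split_ifs <;> norm_num
  | succ j ih =>
    rw [pow_succ, Matrix.mul_apply]
    refine Finset.sum_nonneg fun c _ => mul_nonneg (ih a c) ?_
    simp only [am, Matrix.of_apply]
    split_ifs <;> norm_num

theorem am1 {V : Type} (A : V → V → Prop) (a b : V) : 0 ≤ (am A) a b := by
  simp only [am, Matrix.of_apply]
  split_ifs <;> norm_num

theorem HU (hHU1 : HU1_stmt) (hWCC : WCC_stmt) (hKQ : KQ_stmt) : HU_stmt := by
  intro q k η hk hη
  obtain ⟨δ, hδ, hK⟩ := hKQ q
  obtain ⟨ε, X₀, hε, hX, H⟩ := hHU1 k η δ hk hη hδ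
  refine ⟨ε, X₀, hε, hX, ?_⟩
  intro V _ A Δ G hs hΔ hpos hX2 hcard
  obtain ⟨m, m', hW, hβ, hα, hcnt⟩ := H V A Δ G hs hΔ hpos hX2 hcard
  set W : ℝ := (am A ^ (k + 1)) m m' with hWdef
  let Rel : V → V → Prop := fun u v => Rich A k G η u v ∧ ∃ z, CWk A k z ∧ G z ∧ z 0 = u ∧ z 1 = m ∧
      z ((k + 1 : ℕ) : ZMod (2 * k + 2)) = v ∧ z ((k + 2 : ℕ) : ZMod (2 * k + 2)) = m'
  have hsa : ∑ v, (am A) v m' * (am A ^ k) m v = W := by
    rw [hWdef, pow_succ, Matrix.mul_apply]
    exact Finset.sum_congr rfl fun v _ => mul_comm _ _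
  have hsb : ∑ u, (am A) u m * (am A ^ k) m' u = W := by
    rw [hWdef, amS A hs, pow_succ, Matrix.mul_apply]
    exact Finset.sum_congr rfl fun v _ => mul_comm _ _
  have key : 3 / 4 * W ^ 2 ≤ ∑ u, ∑ v, (@ite ℝ (Rel u v) (Classical.propDecidable (Rel u v))
      (((am A) u m * (am A ^ k) m' u) * ((am A) v m' * (am A ^ k) m v)) 0) := by
    refine hcnt.trans ?_
    have e1 : ((((Finset.univ : Finset (ZMod (2 * k + 2) → V)).filter (fun z => CWk A k z ∧ G z ∧
        z 1 = m ∧ z ((k + 2 : ℕ) : ZMod (2 * k + 2)) = m' ∧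
        Rich A k G η (z 0) (z ((k + 1 : ℕ) : ZMod (2 * k + 2))))).card : ℕ) : ℝ) =
        ∑ u : V, ∑ v : V, ((((Finset.univ : Finset (ZMod (2 * k + 2) → V)).filter (fun z =>
          CWk A k z ∧ G z ∧ z 1 = m ∧ z ((k + 2 : ℕ) : ZMod (2 * k + 2)) = m' ∧
        Rich A k G η (z 0) (z ((k + 1 : ℕ) : ZMod (2 * k + 2))))).filter (fun z => z 0 = u ∧
          z ((k + 1 : ℕ) : ZMod (2 * k + 2)) = v)).card : ℝ) := by
      have e2 := Finset.card_eq_sum_card_fiberwise
        (s := (Finset.univ : Finset (ZMod (2 * k + 2) → V)).filter (fun z => CWk A k z ∧ G z ∧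
        z 1 = m ∧ z ((k + 2 : ℕ) : ZMod (2 * k + 2)) = m' ∧
        Rich A k G η (z 0) (z ((k + 1 : ℕ) : ZMod (2 * k + 2)))))
        (t := (Finset.univ : Finset (V × V)))
        (f := fun z => (z 0, z ((k + 1 : ℕ) : ZMod (2 * k + 2)))) (fun _ _ => Finset.mem_coe.2 (Finset.mem_univ _))
      rw [e2, Nat.cast_sum, ← Finset.univ_product_univ, Finset.sum_product]
      refine Finset.sum_congr rfl fun u _ => Finset.sum_congr rfl fun v _ => ?_
      congr 2
      ext z
      simp only [Prod.mk.injEq]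
    rw [e1]
    refine Finset.sum_le_sum fun u _ => Finset.sum_le_sum fun v _ => ?_
    by_cases hR : Rel u v
    · rw [if_pos hR, ← (hWCC V A hs k).2.2.2 hk u m v m']
      refine Nat.cast_le.2 (Finset.card_le_card ?_)
      intro z hz
      simp only [Finset.mem_filter, Finset.mem_univ, true_and] at hz ⊢
      exact ⟨hz.1.1, hz.2.1, hz.1.2.2.1, hz.2.2, hz.1.2.2.2.1⟩
    · rw [if_neg hR]
      refine le_of_eq ?_
      rw [Nat.cast_eq_zero, Finset.card_eq_zero, Finset.filter_eq_empty_iff]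
      intro z hz hz2
      simp only [Finset.mem_filter, Finset.mem_univ, true_and] at hz
      apply hR
      refine ⟨?_, z, hz.1, hz.2.1, hz2.1, hz.2.2.1, hz2.2, hz.2.2.2.1⟩
      have := hz.2.2.2.2
      rw [hz2.1, hz2.2] at this
      exact this
  obtain ⟨u, v, hu, hv, huv⟩ := hK V (fun v => (am A) v m' * (am A ^ k) m v)
    (fun u => (am A) u m * (am A ^ k) m' u) W Rel hW
    (fun v => mul_nonneg (am1 A _ _) (am0 A _ _ _)) (fun v => mul_nonneg (am1 A _ _) (am0 A _ _ _))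
    hsa hsb hα hβ key
  exact ⟨m, m', u, v, hu, hv, huv⟩

end Pool.Agent.helper55.F2
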